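import Pool.Agent.W788.NV.Stm

namespace Pool.Agent.W853.NV

open Finset Pool.Agent.W788.NV

theorem mem_dep {V : Type} [Fintype V] [DecidableEq V] {q : ℕ} (Φ : Mp V q) (v w : V) :
    w ∈ dep Φ v ↔ ∃ x a, Φ (Function.update x v a) w ≠ Φ x w := by
  simp [dep]

theorem mL_inl_ne {V : Type} [DecidableEq V] {q : ℕ} (Φ : Mp V q) (w : V) (a : Fin q)
    (x : V → Fin q) (u : V) (h : u ≠ w) : mL (Sum.inl (w, a)) Φ x u = Φ x u := by
  simp [mL, act, Function.update_of_ne h]

theorem mL_inl_eq {V : Type} [DecidableEq V] {q : ℕ} (Φ : Mp V q) (w : V) (a : Fin q)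
    (x : V → Fin q) : mL (Sum.inl (w, a)) Φ x w = a := by
  simp [mL, act]

theorem mL_inr_ne {V : Type} [DecidableEq V] {q : ℕ} (Φ : Mp V q) (w z : V)
    (x : V → Fin q) (u : V) (h : u ≠ w) : mL (Sum.inr (w, z)) Φ x u = Φ x u := by
  simp [mL, act, Function.update_of_ne h]

theorem mL_inr_eq {V : Type} [DecidableEq V] {q : ℕ} (Φ : Mp V q) (w z : V)
    (x : V → Fin q) : mL (Sum.inr (w, z)) Φ x w = Φ x z := by
  simp [mL, act]

theorem dl_ : S_DL := by
  intro V _ _ q Φ v
  refine ⟨?_, ?_, ?_, ?_⟩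
  · intro w a
    ext u
    rw [mem_erase, mem_dep, mem_dep]
    by_cases h : u = w
    · subst h
      simp [mL_inl_eq]
    · simp only [mL_inl_ne _ _ _ _ _ h]
      exact ⟨fun hh => ⟨h, hh⟩, fun hh => hh.2⟩
  · intro w u hu
    rw [mem_dep] at hu
    ext z
    rw [mem_insert, mem_dep, mem_dep]
    by_cases h : z = w
    · subst h
      simp only [mL_inr_eq]
      exact ⟨fun _ => Or.inl trivial, fun _ => hu⟩
    · simp only [mL_inr_ne _ _ _ _ _ h]
      exact ⟨fun hh => Or.inr hh, fun hh => hh.resolve_left h⟩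
  · intro w u hu
    rw [mem_dep] at hu
    ext z
    rw [mem_erase, mem_dep, mem_dep]
    by_cases h : z = w
    · subst h
      simp only [mL_inr_eq]
      exact ⟨fun hh => absurd hh hu, fun hh => absurd rfl hh.1⟩
    · simp only [mL_inr_ne _ _ _ _ _ h]
      exact ⟨fun hh => ⟨h, hh⟩, fun hh => hh.2⟩
  · intro z hz
    rw [mem_dep] at hz
    rw [mem_singleton]
    obtain ⟨x, a, h⟩ := hz
    by_contra hne
    exact h (by simp [Function.update_of_ne hne])

end Pool.Agent.W853.NV
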